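import Pool.Agent.W866.TC.Stm

/-!
# Translates of a Cantor set: parts CTBL and DEC
-/

set_option autoImplicit false

namespace Pool.Agent.W976.TC

open Pool.Agent.W866.TC

variable {W I : Type}

theorem B_pos (l : ℕ) : 0 < B l := by
  induction l with
  | zero => simp [B]
  | succ l ih => simp only [B]; exact Nat.mul_pos ih (by unfold b; positivity)

theorem nExt_refl (n : ℕ × ℕ) : NExt n n := by
  refine ⟨le_refl _, ?_⟩
  unfold cut
  rw [Nat.div_self (B_pos _), Nat.div_one]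

theorem stronger_refl (p : Cond W I) : Stronger p p := ⟨fun a => nExt_refl _, fun _ h => h⟩

/-- CTBL: the set of the valid conditions is countable. -/
theorem ctbl (W I : Type) [LinearOrder W] : S_CTBL W I := by
  intro r hr
  have h1 : ({t : Set (W × (ℕ × ℕ)) | t.Finite ∧ t ⊆ r.w ×ˢ Set.univ}).Countable :=
    Set.countable_setOf_finite_subset (hr.cw.prod Set.countable_univ)
  have h2 : ({t : Set (W × I) | t.Finite ∧ t ⊆ r.J}).Countable :=
    Set.countable_setOf_finite_subset hr.cJ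
  refine Set.MapsTo.countable_of_injOn
    (f := fun p : Cond W I => (({x : W × (ℕ × ℕ) | p.u x.1 = x.2 ∧ x.2 ≠ (0, 0)} :
      Set (W × (ℕ × ℕ))), ((p.F : Set (W × I))))) ?_ ?_ (h1.prod h2)
  · intro p hp
    have hp : Valid r p := hp
    refine ⟨⟨?_, ?_⟩, ⟨p.F.finite_toSet, ?_⟩⟩
    · refine (hp.fin.image (fun a => (a, p.u a))).subset ?_
      rintro ⟨a, x⟩ ⟨h1, h2⟩
      simp only at h1 h2
      exact ⟨a, by simp only [Set.mem_setOf_eq]; rw [h1]; exact h2, by simp [h1]⟩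
    · rintro ⟨a, x⟩ ⟨h1, h2⟩
      simp only at h1 h2
      exact ⟨hp.sub a (by rw [h1]; exact h2), trivial⟩
    · intro ι hι
      exact hp.J ι hι
  · intro p _ q _ hpq
    have h3 := congrArg Prod.fst hpq
    have h4 := congrArg Prod.snd hpq
    simp only at h3 h4
    refine Cond.ext ?_ (by exact_mod_cast h4)
    funext a
    by_cases h5 : p.u a = (0, 0)
    · by_cases h6 : q.u a = (0, 0)
      · rw [h5, h6]
      · have : ((a, q.u a) : W × (ℕ × ℕ)) ∈ {x : W × (ℕ × ℕ) | p.u x.1 = x.2 ∧ x.2 ≠ (0, 0)} := by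
          rw [h3]; exact ⟨rfl, h6⟩
        exact this.1
    · have : ((a, p.u a) : W × (ℕ × ℕ)) ∈ {x : W × (ℕ × ℕ) | q.u x.1 = x.2 ∧ x.2 ≠ (0, 0)} := by
        rw [← h3]; exact ⟨rfl, h5⟩
      exact this.1.symm

theorem rle_refl (r : RD W I) : RLe r r :=
  ⟨fun _ h => h, fun _ h => h, fun _ _ => rfl, fun _ h => h⟩

theorem rle_trans {r₁ r₂ r₃ : RD W I} (h : RLe r₃ r₂) (h' : RLe r₂ r₁) : RLe r₃ r₁ :=
  ⟨fun _ hx => h.w (h'.w hx), fun _ hx => h.J (h'.J hx),
    fun ι hx => (h.nm ι (h'.J hx)).trans (h'.nm ι hx), fun _ hx => h.N (h'.N hx)⟩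

theorem valid_mono {r r' : RD W I} (h : RLe r' r) {p : Cond W I} (hp : Valid r p) :
    Valid r' p :=
  ⟨hp.fin, fun a ha => h.w (hp.sub a ha), hp.node, hp.room, fun ι hι => h.J (hp.J ι hι),
    fun ι hι => by rw [h.nm ι (hp.J ι hι)]; exact hp.wit ι hι⟩

/-- the union of a chain -/
def lim (r : ℕ → RD W I) : RD W I where
  w := ⋃ k, (r k).w
  J := ⋃ k, (r k).J
  nm := fun ι => ⋃ k, (r k).nm ι
  N := ⋃ k, (r k).N

section

variable [LinearOrder W]

theorem chain_le {r : ℕ → RD W I} (hL : ∀ k, RLe (r (k + 1)) (r k)) {k m : ℕ} (h : k ≤ m) :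
    RLe (r m) (r k) := by
  induction m, h using Nat.le_induction with
  | base => exact rle_refl _
  | succ m _ ih => exact rle_trans (hL m) ih

theorem lim_nm {r : ℕ → RD W I} (hR : ∀ k, IsR (r k)) (hL : ∀ k, RLe (r (k + 1)) (r k)) {k : ℕ}
    {ι : W × I} (h : ι ∈ (r k).J) : (lim r).nm ι = (r k).nm ι := by
  apply Set.Subset.antisymm
  · intro x hx
    obtain ⟨m, hm⟩ := Set.mem_iUnion.1 hx
    rcases le_total k m with h1 | h1
    · rw [(chain_le hL h1).nm ι h] at hm
      exact hm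
    · by_cases h2 : ι ∈ (r m).J
      · rw [(chain_le hL h1).nm ι h2]
        exact hm
      · rw [(hR m).junk ι h2] at hm
        exact hm.elim
  · intro x hx
    exact Set.mem_iUnion.2 ⟨k, hx⟩

theorem lim_le {r : ℕ → RD W I} (hR : ∀ k, IsR (r k)) (hL : ∀ k, RLe (r (k + 1)) (r k)) (k : ℕ) :
    RLe (lim r) (r k) :=
  ⟨fun _ h => Set.mem_iUnion.2 ⟨k, h⟩, fun _ h => Set.mem_iUnion.2 ⟨k, h⟩,
    fun _ h => lim_nm hR hL h, fun _ h => Set.mem_iUnion.2 ⟨k, h⟩⟩

/-- finite sets in the union of a chain -/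
theorem fin_chain {α : Type} {s : ℕ → Set α} (hs : ∀ k m, k ≤ m → s k ⊆ s m) {t : Set α}
    (ht : t.Finite) (h : ∀ x ∈ t, ∃ k, x ∈ s k) : ∃ k, t ⊆ s k := by
  induction t, ht using Set.Finite.induction_on with
  | empty => exact ⟨0, Set.empty_subset _⟩
  | @insert a t _ _ ih =>
    obtain ⟨k, hk⟩ := ih (fun x hx => h x (Set.mem_insert_of_mem _ hx))
    obtain ⟨m, hm⟩ := h a (Set.mem_insert _ _)
    refine ⟨max k m, ?_⟩
    intro x hx
    rcases hx with rfl | hx
    · exact hs m _ (le_max_right _ _) hm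
    · exact hs k _ (le_max_left _ _) (hk hx)

theorem valid_lim {r : ℕ → RD W I} (hR : ∀ k, IsR (r k)) (hL : ∀ k, RLe (r (k + 1)) (r k))
    {p : Cond W I} (hp : Valid (lim r) p) : ∃ k, Valid (r k) p := by
  obtain ⟨k, hk⟩ := fin_chain (s := fun k => (r k).w) (fun k m h => (chain_le hL h).w) hp.fin
    (fun a ha => Set.mem_iUnion.1 (hp.sub a ha))
  obtain ⟨m, hm⟩ := fin_chain (s := fun k => (r k).J) (fun k m h => (chain_le hL h).J)
    p.F.finite_toSet (fun ι hι => Set.mem_iUnion.1 (hp.J ι hι))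
  refine ⟨max k m, hp.fin, fun a ha => (chain_le hL (le_max_left k m)).w (hk ha), hp.node,
    hp.room, fun ι hι => (chain_le hL (le_max_right k m)).J (hm hι), ?_⟩
  intro ι hι
  have := hp.wit ι hι
  rw [lim_nm hR hL ((chain_le hL (le_max_right k m)).J (hm hι))] at this
  exact this

theorem lim_isR {r : ℕ → RD W I} (hR : ∀ k, IsR (r k)) (hL : ∀ k, RLe (r (k + 1)) (r k)) :
    IsR (lim r) where
  cw := Set.countable_iUnion fun k => (hR k).cw
  cJ := Set.countable_iUnion fun k => (hR k).cJ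
  Jw := fun ι hι => by
    obtain ⟨k, hk⟩ := Set.mem_iUnion.1 hι
    exact Set.mem_iUnion.2 ⟨k, (hR k).Jw ι hk⟩
  junk := fun ι hι => by
    apply Set.eq_empty_iff_forall_notMem.2
    intro x hx
    obtain ⟨k, hk⟩ := Set.mem_iUnion.1 hx
    rw [(hR k).junk ι (fun h => hι (Set.mem_iUnion.2 ⟨k, h⟩))] at hk
    exact hk
  name := fun ι hι => by
    obtain ⟨k, hk⟩ := Set.mem_iUnion.1 hι
    rw [lim_nm hR hL hk]
    have hN := (hR k).name ι hk
    refine ⟨fun q n h => valid_mono (lim_le hR hL k) (hN.valid q n h), hN.node, ?_,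
      fun q n h l => (lim_le hR hL k).N (hN.tot q n h l)⟩
    intro q n q' n' h h' s hs h1 h2 h3
    obtain ⟨m, hm⟩ := valid_lim hR hL hs
    have hs' : Valid (r (max k m)) s := valid_mono (chain_le hL (le_max_right _ _)) hm
    have hk' := (chain_le hL (le_max_left k m)).J hk
    have hN' := (hR (max k m)).name ι hk'
    rw [(chain_le hL (le_max_left k m)).nm ι hk] at hN'
    exact hN'.coh q n q' n' h h' s hs' h1 h2 h3
  below := fun ι hι q n h => by
    obtain ⟨k, hk⟩ := Set.mem_iUnion.1 hι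
    rw [lim_nm hR hL hk] at h
    exact (hR k).below ι hk q n h
  cN := Set.countable_iUnion fun k => (hR k).cN
  N1 := fun p A h => by
    obtain ⟨k, hk⟩ := Set.mem_iUnion.1 h
    exact ⟨valid_mono (lim_le hR hL k) ((hR k).N1 p A hk).1,
      fun q hq => valid_mono (lim_le hR hL k) (((hR k).N1 p A hk).2 q hq)⟩
  N2 := fun p A h => by
    obtain ⟨k, hk⟩ := Set.mem_iUnion.1 h
    intro q hq hqp
    obtain ⟨m, hm⟩ := valid_lim hR hL hq
    obtain ⟨a, ha, s, hs, h1, h2⟩ := (hR (max k m)).N2 p A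
      ((chain_le hL (le_max_left k m)).N hk) q (valid_mono (chain_le hL (le_max_right k m)) hm) hqp
    exact ⟨a, ha, s, valid_mono (lim_le hR hL _) hs, h1, h2⟩

/-- DEC: deciding countably many dense sets at once. -/
theorem dec (W I : Type) [LinearOrder W] (hC : S_CTBL W I) : S_DEC W I := by
  classical
  intro r Φ hr hmono hdense
  -- the states
  let St : Type := {r₁ : RD W I // IsR r₁ ∧ RLe r₁ r}
  have hstep : ∀ (s : St) (n : ℕ) (p : Cond W I), ∃ s' : St, RLe s'.1 s.1 ∧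
      (Valid s.1 p → ∃ q, Valid s'.1 q ∧ Stronger q p ∧ Φ n s'.1 q) := by
    intro s n p
    by_cases hp : Valid s.1 p
    · obtain ⟨r₂, p₂, h1, h2, h3, h4, h5⟩ := hdense n s.1 p s.2.1 s.2.2 hp
      exact ⟨⟨r₂, h1, rle_trans h2 s.2.2⟩, h2, fun _ => ⟨p₂, h3, h4, h5⟩⟩
    · exact ⟨s, rle_refl _, fun h => (hp h).elim⟩
  choose step hs1 hs2 using hstep
  have : Nonempty (Cond W I) := ⟨⟨fun _ => (0, 0), ∅⟩⟩
  have henum : ∀ s : St, ∃ f : ℕ → Cond W I, {p | Valid s.1 p} ⊆ Set.range f := fun s =>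
    Set.countable_iff_exists_subset_range.1 (hC s.1 s.2.1)
  choose enum henum using henum
  let nxt : ℕ → St × (ℕ → ℕ → Cond W I) → St × (ℕ → ℕ → Cond W I) := fun k x =>
    (step x.1 (k.unpair.2.unpair.1)
      ((Function.update x.2 k (enum x.1)) k.unpair.1 k.unpair.2.unpair.2),
      Function.update x.2 k (enum x.1))
  let x0 : St × (ℕ → ℕ → Cond W I) := (⟨r, hr, rle_refl r⟩, fun _ _ => ⟨fun _ => (0, 0), ∅⟩)
  let X : ℕ → St × (ℕ → ℕ → Cond W I) := fun k => Nat.rec x0 (fun k x => nxt k x) k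
  have hX : ∀ k, X (k + 1) = nxt k (X k) := fun k => rfl
  have hX1 : ∀ k, (X (k + 1)).1 = step (X k).1 (k.unpair.2.unpair.1)
      ((X (k + 1)).2 k.unpair.1 k.unpair.2.unpair.2) := fun k => rfl
  have hL2 : ∀ k j, j < k → (X k).2 j = enum (X j).1 := by
    intro k
    induction k with
    | zero => intro j hj; exact absurd hj (Nat.not_lt_zero _)
    | succ k ih =>
      intro j hj
      have : (X (k + 1)).2 = Function.update (X k).2 k (enum (X k).1) := rfl
      rw [this]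
      by_cases h : j = k
      · subst h; rw [Function.update_self]
      · rw [Function.update_of_ne h]
        exact ih j (by omega)
  have hR : ∀ k, IsR ((fun k => (X k).1.1) k) := fun k => (X k).1.2.1
  have hL : ∀ k, RLe ((fun k => (X k).1.1) (k + 1)) ((fun k => (X k).1.1) k) := by
    intro k
    show RLe (X (k + 1)).1.1 (X k).1.1
    rw [hX1]
    exact hs1 _ _ _
  refine ⟨lim (fun k => (X k).1.1), lim_isR hR hL, lim_le hR hL 0, ?_⟩
  intro n p hp
  obtain ⟨j, hj⟩ := valid_lim hR hL hp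
  obtain ⟨m, hm⟩ := henum (X j).1 hj
  set k := Nat.pair j (Nat.pair n m) with hk
  have hjk : j ≤ k := Nat.left_le_pair _ _
  have h1 : (X (k + 1)).2 k.unpair.1 k.unpair.2.unpair.2 = p := by
    rw [hk]
    simp only [Nat.unpair_pair]
    rw [← hk, hL2 (k + 1) j (by omega)]
    exact hm
  have h2 : Valid (X k).1.1 p :=
    valid_mono (chain_le (r := fun k => (X k).1.1) hL hjk) hj
  obtain ⟨q, hq1, hq2, hq3⟩ := hs2 (X k).1 n p h2
  have h3 : (X (k + 1)).1 = step (X k).1 n p := by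
    rw [hX1, h1, hk]
    simp only [Nat.unpair_pair]
  have hq1' : Valid (X (k + 1)).1.1 q := by rw [h3]; exact hq1
  have hq3' : Φ n (X (k + 1)).1.1 q := by rw [h3]; exact hq3
  refine ⟨q, valid_mono (lim_le hR hL (k + 1)) hq1', hq2, ?_⟩
  exact hmono n _ q _ q (hR (k + 1)) (lim_isR hR hL) hq1' (valid_mono (lim_le hR hL (k + 1)) hq1')
    (lim_le hR hL (k + 1)) (stronger_refl q) hq3'

end

end Pool.Agent.W976.TC
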