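import Pool.Agent.W976.TC.Dec

/-!
# Translates of a Cantor set: part EXTEND
-/

set_option autoImplicit false

namespace Pool.Agent.W976.TC

open Pool.Agent.W866.TC

variable {W I : Type}

theorem B_dvd {l l' : ℕ} (h : l ≤ l') : B l ∣ B l' := by
  induction l', h using Nat.le_induction with
  | base => exact dvd_refl _
  | succ m _ ih => exact ih.trans ⟨b m, rfl⟩

theorem b_mono {l l' : ℕ} (h : l ≤ l') : b l ≤ b l' := by
  unfold b
  exact Nat.pow_le_pow_right (by norm_num) (by omega)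

theorem quot_mul {l m k : ℕ} (h : l ≤ m) (h' : m ≤ k) :
    (B k / B m) * (B m / B l) = B k / B l := by
  obtain ⟨x, hx⟩ := B_dvd h
  obtain ⟨y, hy⟩ := B_dvd h'
  have h1 := B_pos l
  have h2 := B_pos m
  have e1 : B m / B l = x := by rw [hx]; exact Nat.mul_div_cancel_left _ h1
  have e2 : B k / B m = y := by rw [hy]; exact Nat.mul_div_cancel_left _ h2
  have e3 : B k / B l = x * y := by
    rw [hy, hx, mul_assoc]; exact Nat.mul_div_cancel_left _ h1
  rw [e1, e2, e3, mul_comm]

theorem cut_cut {l m : ℕ} {n : ℕ × ℕ} (h : l ≤ m) (h' : m ≤ n.1) :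
    cut l (m, cut m n) = cut l n := by
  unfold cut
  simp only
  rw [Nat.div_div_eq_div_mul, quot_mul h h']

theorem nExt_trans {n m k : ℕ × ℕ} (h : NExt n m) (h' : NExt m k) : NExt n k := by
  refine ⟨h.1.trans h'.1, ?_⟩
  rw [← cut_cut h.1 h'.1, h'.2]
  exact h.2

theorem nExt_zero {m : ℕ × ℕ} (h : IsNode m) : NExt (0, 0) m := by
  refine ⟨Nat.zero_le _, ?_⟩
  unfold cut
  simp only [B, Nat.div_one]
  exact Nat.div_eq_of_lt h

theorem cut_lt {l : ℕ} {n : ℕ × ℕ} (h : IsNode n) (hl : l ≤ n.1) : cut l n < B l := by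
  unfold cut
  obtain ⟨x, hx⟩ := B_dvd hl
  have h1 := B_pos l
  rw [hx, Nat.mul_div_cancel_left _ h1]
  have hx0 : 0 < x := by
    rcases Nat.eq_zero_or_pos x with h2 | h2
    · rw [h2, mul_zero] at hx
      exact absurd hx (B_pos _).ne'
    · exact h2
  rw [Nat.div_lt_iff_lt_mul hx0, ← hx]
  exact h

theorem stronger_trans {p q s : Cond W I} (h : Stronger p q) (h' : Stronger q s) : Stronger p s :=
  ⟨fun a => nExt_trans (h'.1 a) (h.1 a), fun _ hx => h.2 (h'.2 hx)⟩

section

variable [LinearOrder W]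

theorem restrB_u_of_lt {a c : W} (h : c < a) (p : Cond W I) : (restrB a p).u c = p.u c := by
  simp [restrB, h]

theorem restrB_u_of_not_lt {a c : W} (h : ¬ c < a) (p : Cond W I) :
    (restrB a p).u c = (0, 0) := by
  simp [restrB, h]

theorem mem_restrB_F {a : W} {p : Cond W I} {ι : W × I} :
    ι ∈ (restrB a p).F ↔ ι ∈ p.F ∧ ι.1 < a := by
  simp [restrB]

theorem below_restrB (a : W) (p : Cond W I) : Below a (restrB a p) := by
  refine ⟨?_, fun ι hι => (mem_restrB_F.1 hι).2⟩
  intro c hc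
  by_contra h
  exact hc (restrB_u_of_not_lt h p)

theorem below_mono {a c : W} (h : a ≤ c) {p : Cond W I} (hp : Below a p) : Below c p :=
  ⟨fun e he => (hp.1 e he).trans_le h, fun ι hι => (hp.2 ι hι).trans_le h⟩

theorem stronger_restrB {a : W} {p x : Cond W I} (h : Stronger p x) (hx : Below a x) :
    Stronger (restrB a p) x := by
  refine ⟨?_, ?_⟩
  · intro c
    by_cases hc : c < a
    · rw [restrB_u_of_lt hc]; exact h.1 c
    · rw [restrB_u_of_not_lt hc]
      have : x.u c = (0, 0) := by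
        by_contra h2
        exact hc (hx.1 c h2)
      rw [this]
      exact nExt_refl _
  · intro ι hι
    exact mem_restrB_F.2 ⟨h.2 hι, hx.2 ι hι⟩

theorem valid_restrB {r : RD W I} (hr : IsR r) {p : Cond W I} (hp : Valid r p) (a : W) :
    Valid r (restrB a p) := by
  classical
  refine ⟨?_, ?_, ?_, ?_, ?_, ?_⟩
  · refine hp.fin.subset ?_
    intro c hc
    by_cases h : c < a
    · have hc' : (restrB a p).u c ≠ (0, 0) := hc
      rw [restrB_u_of_lt h] at hc'
      exact hc'
    · exact absurd (restrB_u_of_not_lt h p) hc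
  · intro c hc
    by_cases h : c < a
    · rw [restrB_u_of_lt h] at hc
      exact hp.sub c hc
    · exact absurd (restrB_u_of_not_lt h p) hc
  · intro c
    by_cases h : c < a
    · rw [restrB_u_of_lt h]; exact hp.node c
    · rw [restrB_u_of_not_lt h]; exact Nat.one_pos
  · intro c
    by_cases h : c < a
    · rw [restrB_u_of_lt h]
      have : cnt (restrB a p) c = cnt p c := by
        unfold cnt
        congr 1
        ext ι
        simp only [Finset.mem_filter, mem_restrB_F]
        constructor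
        · rintro ⟨⟨h1, _⟩, h2⟩; exact ⟨h1, h2⟩
        · rintro ⟨h1, h2⟩; exact ⟨⟨h1, by rw [h2]; exact h⟩, h2⟩
      rw [this]
      exact hp.room c
    · rw [restrB_u_of_not_lt h]
      have : cnt (restrB a p) c = 0 := by
        unfold cnt
        rw [Finset.card_eq_zero]
        ext ι
        simp only [Finset.mem_filter, mem_restrB_F, Finset.notMem_empty, iff_false]
        rintro ⟨⟨_, h1⟩, h2⟩
        exact h (h2 ▸ h1)
      rw [this]
      norm_num [b]
  · intro ι hι
    exact hp.J ι (mem_restrB_F.1 hι).1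
  · intro ι hι
    obtain ⟨h1, h2⟩ := mem_restrB_F.1 hι
    obtain ⟨q, n, h3, h4, h5, h6⟩ := hp.wit ι h1
    have h7 : Below a q := below_mono h2.le (hr.below ι (hp.J ι h1) q n h3)
    rw [restrB_u_of_lt h2]
    exact ⟨q, n, h3, stronger_restrB h4 h7, h5, h6⟩

/-- step (1) -/
theorem long_names {r : RD W I} (hr : IsR r) {p q : Cond W I} {a : W} (l : ℕ) (hp : Valid r p)
    (hq : Valid r q) (hqa : Below a q) (hqp : Stronger q (restrB a p)) (T : Finset (W × I))
    (hT : ∀ ι ∈ T, ι ∈ p.F ∧ ι.1 = a) :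
    ∃ q1, Valid r q1 ∧ Below a q1 ∧ Stronger q1 q ∧
      ∀ ι ∈ T, ∃ q' n', (q', n') ∈ r.nm ι ∧ Stronger q1 q' ∧ l ≤ n'.1 := by
  classical
  induction T using Finset.induction_on with
  | empty =>
    exact ⟨q, hq, hqa, stronger_refl q, fun ι hι => absurd hι (Finset.notMem_empty _)⟩
  | @insert ι T _ ih =>
    obtain ⟨q1, h1, h2, h3, h4⟩ := ih (fun ι hι => hT ι (Finset.mem_insert_of_mem hι))
    obtain ⟨hιp, hιa⟩ := hT ι (Finset.mem_insert_self _ _)
    obtain ⟨q0, n0, h5, h6, _, _⟩ := hp.wit ι hιp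
    have hJ := hp.J ι hιp
    have h7 : Below a q0 := hιa ▸ hr.below ι hJ q0 n0 h5
    have h8 : Stronger q1 q0 :=
      stronger_trans h3 (stronger_trans hqp (stronger_restrB h6 h7))
    obtain ⟨a', ⟨n', h9, h10⟩, s, h11, h12, h13⟩ :=
      hr.N2 _ _ ((hr.name ι hJ).tot q0 n0 h5 l) q1 h1 h8
    have h14 : Below a a' := hιa ▸ hr.below ι hJ a' n' h9
    refine ⟨restrB a s, valid_restrB hr h11 a, below_restrB a s,
      stronger_trans (stronger_restrB h12 h2) h3, ?_⟩
    intro κ hκ
    rcases Finset.mem_insert.1 hκ with rfl | hκ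
    · exact ⟨a', n', h9, stronger_restrB h13 h14, h10⟩
    · obtain ⟨q', n'', h15, h16, h17⟩ := h4 κ hκ
      exact ⟨q', n'', h15, stronger_trans (stronger_restrB h12 h2) h16, h17⟩

/-- EXTEND: making the node at stage `a` longer. -/
theorem extend (W I : Type) [LinearOrder W] (hE : S_EXT) : S_EXTEND W I := by
  classical
  intro r p q a l s hr hp ha hq hqa hqp hl hs hgs
  have : Nonempty (Cond W I) := ⟨⟨fun _ => (0, 0), ∅⟩⟩
  obtain ⟨q1, hq1, hq1a, hq1q, hlong⟩ := long_names hr l hp hq hqa hqp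
    (p.F.filter fun ι => ι.1 = a) (fun ι hι => Finset.mem_filter.1 hι)
  choose! Q N hQ1 hQ2 hQ3 using hlong
  set l0 := (p.u a).1 with hl0
  have hcoh : ∀ ι ∈ p.F.filter (fun ι => ι.1 = a),
      GoodSum l0 (cut l0 (N ι) + (p.u a).2) := by
    intro ι hι
    obtain ⟨hιp, hιa⟩ := Finset.mem_filter.1 hι
    obtain ⟨q0, n0, h5, h6, h7, h8⟩ := hp.wit ι hιp
    have hJ := hp.J ι hιp
    have h9 : Below a q0 := hιa ▸ hr.below ι hJ q0 n0 h5
    have h10 : Stronger q1 q0 :=
      stronger_trans hq1q (stronger_trans hqp (stronger_restrB h6 h9))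
    rw [hιa] at h7 h8
    have h11 : cut l0 (N ι) = cut l0 n0 := by
      rcases le_total n0.1 (N ι).1 with h | h
      · have h12 := (hr.name ι hJ).coh q0 n0 (Q ι) (N ι) h5 (hQ1 ι hι) q1 hq1 h10 (hQ2 ι hι) h
        rw [← cut_cut h7 h, h12.2]
      · have h12 := (hr.name ι hJ).coh (Q ι) (N ι) q0 n0 (hQ1 ι hι) h5 q1 hq1 (hQ2 ι hι) h10 h
        rw [← cut_cut (hl.trans (hQ3 ι hι)) h, h12.2]
    rw [h11]
    exact h8
  have hnode : ∀ ι ∈ p.F.filter (fun ι => ι.1 = a), IsNode (N ι) := by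
    intro ι hι
    exact (hr.name ι (hp.J ι (Finset.mem_filter.1 hι).1)).node _ _ (hQ1 ι hι)
  obtain ⟨u', hu1, hu2, hu3⟩ := hE l0 l hl
    (insert s ((p.F.filter fun ι => ι.1 = a).image fun ι => cut l (N ι))) (p.u a).2 (hp.node a)
    (by
      intro x hx
      rcases Finset.mem_insert.1 hx with rfl | hx
      · exact ⟨hs, hgs⟩
      · obtain ⟨ι, hι, rfl⟩ := Finset.mem_image.1 hx
        refine ⟨cut_lt (hnode ι hι) (hQ3 ι hι), ?_⟩
        rw [cut_cut hl (hQ3 ι hι)]
        exact hcoh ι hι)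
    (by
      have h1 : 3 * (cnt p a + 1) < b l0 := hp.room a
      have h2 : (insert s ((p.F.filter fun ι => ι.1 = a).image fun ι => cut l (N ι))).card ≤
          cnt p a + 1 := by
        refine (Finset.card_insert_le _ _).trans ?_
        have h3 : cnt p a = (p.F.filter fun ι => ι.1 = a).card := by
          unfold cnt
          congr 1
          ext ι
          simp only [Finset.mem_filter]
        rw [h3]
        exact Nat.add_le_add_right Finset.card_image_le 1
      omega)
  let p' : Cond W I :=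
    { u := fun c => if c < a then q1.u c else if c = a then (l, u') else p.u c
      F := q1.F ∪ p.F.filter fun ι => a ≤ ι.1 }
  have pu1 : ∀ c, c < a → p'.u c = q1.u c := fun c hc => if_pos hc
  have pu2 : p'.u a = (l, u') := by
    show (if a < a then q1.u a else if a = a then (l, u') else p.u a) = _
    rw [if_neg (lt_irrefl a), if_pos rfl]
  have pu3 : ∀ c, a < c → p'.u c = p.u c := fun c hc => by
    show (if c < a then q1.u c else if c = a then (l, u') else p.u c) = _
    rw [if_neg (not_lt.2 hc.le), if_neg hc.ne']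
  have pF : ∀ ι, ι ∈ p'.F ↔ ι ∈ q1.F ∨ (ι ∈ p.F ∧ a ≤ ι.1) := by
    intro ι
    show ι ∈ q1.F ∪ p.F.filter (fun ι => a ≤ ι.1) ↔ _
    rw [Finset.mem_union, Finset.mem_filter]
  have hnl : IsNode (l, u') := hu1
  have hnode' : ∀ c, IsNode (p'.u c) := by
    intro c
    rcases lt_trichotomy c a with h | h | h
    · rw [pu1 c h]; exact hq1.node c
    · rw [h, pu2]; exact hnl
    · rw [pu3 c h]; exact hp.node c
  have hS1 : Stronger p' q1 := by
    refine ⟨?_, fun ι hι => (pF ι).2 (Or.inl hι)⟩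
    intro c
    by_cases h : c < a
    · rw [pu1 c h]; exact nExt_refl _
    · have : q1.u c = (0, 0) := by
        by_contra h2
        exact h (hq1a.1 c h2)
      rw [this]
      exact nExt_zero (hnode' c)
  have hS2 : Stronger p' p := by
    refine ⟨?_, ?_⟩
    · intro c
      rcases lt_trichotomy c a with h | h | h
      · rw [pu1 c h]
        have h1 := hqp.1 c
        rw [restrB_u_of_lt h] at h1
        exact nExt_trans h1 (hq1q.1 c)
      · rw [h, pu2]
        exact ⟨hl, hu2⟩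
      · rw [pu3 c h]; exact nExt_refl _
    · intro ι hι
      rw [pF]
      by_cases h : ι.1 < a
      · exact Or.inl (hq1q.2 (hqp.2 (mem_restrB_F.2 ⟨hι, h⟩)))
      · exact Or.inr ⟨hι, not_lt.1 h⟩
  have hcnt1 : ∀ c, c < a → cnt p' c = cnt q1 c := by
    intro c hc
    unfold cnt
    congr 1
    ext ι
    simp only [Finset.mem_filter, pF]
    constructor
    · rintro ⟨h1 | ⟨_, h1⟩, h2⟩
      · exact ⟨h1, h2⟩
      · exact absurd (h2 ▸ h1) (not_le.2 hc)
    · rintro ⟨h1, h2⟩; exact ⟨Or.inl h1, h2⟩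
  have hcnt2 : ∀ c, a ≤ c → cnt p' c = cnt p c := by
    intro c hc
    unfold cnt
    congr 1
    ext ι
    simp only [Finset.mem_filter, pF]
    constructor
    · rintro ⟨h1 | ⟨h1, _⟩, h2⟩
      · have h3 := hq1a.2 ι h1
        rw [h2] at h3
        exact absurd h3 (not_lt.2 hc)
      · exact ⟨h1, h2⟩
    · rintro ⟨h1, h2⟩; exact ⟨Or.inr ⟨h1, h2 ▸ hc⟩, h2⟩
  refine ⟨p', ⟨?_, ?_, hnode', ?_, ?_, ?_⟩, hS2, stronger_trans hS1 hq1q, by rw [pu2], ?_,
    hcnt2 a le_rfl⟩
  · refine ((hq1.fin.union (Set.finite_singleton a)).union hp.fin).subset ?_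
    intro c hc
    have hc' : p'.u c ≠ (0, 0) := hc
    rcases lt_trichotomy c a with h | h | h
    · rw [pu1 c h] at hc'
      exact Or.inl (Or.inl hc')
    · exact Or.inl (Or.inr h)
    · rw [pu3 c h] at hc'
      exact Or.inr hc'
  · intro c hc
    rcases lt_trichotomy c a with h | h | h
    · rw [pu1 c h] at hc
      exact hq1.sub c hc
    · rw [h]; exact ha
    · rw [pu3 c h] at hc
      exact hp.sub c hc
  · intro c
    rcases lt_trichotomy c a with h | h | h
    · rw [pu1 c h, hcnt1 c h]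
      exact hq1.room c
    · subst h
      rw [pu2, hcnt2 c le_rfl]
      exact (hp.room c).trans_le (b_mono hl)
    · rw [pu3 c h, hcnt2 c h.le]
      exact hp.room c
  · intro ι hι
    rcases (pF ι).1 hι with h | h
    · exact hq1.J ι h
    · exact hp.J ι h.1
  · intro ι hι
    rcases (pF ι).1 hι with h | ⟨h, h'⟩
    · obtain ⟨x, n, h1, h2, h3, h4⟩ := hq1.wit ι h
      rw [pu1 ι.1 (hq1a.2 ι h)]
      exact ⟨x, n, h1, stronger_trans hS1 h2, h3, h4⟩
    · rcases h'.eq_or_lt with h'' | h''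
      · have hm : ι ∈ p.F.filter (fun ι => ι.1 = a) := Finset.mem_filter.2 ⟨h, h''.symm⟩
        rw [← h'', pu2]
        refine ⟨Q ι, N ι, hQ1 ι hm, stronger_trans hS1 (hQ2 ι hm), hQ3 ι hm, ?_⟩
        exact hu3 _ (Finset.mem_insert_of_mem (Finset.mem_image_of_mem _ hm))
      · obtain ⟨x, n, h1, h2, h3, h4⟩ := hp.wit ι h
        rw [pu3 ι.1 h'']
        exact ⟨x, n, h1, stronger_trans hS2 h2, h3, h4⟩
  · rw [pu2]
    exact hu3 s (Finset.mem_insert_self _ _)

end

end Pool.Agent.W976.TC
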